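import Pool.Agent.Work.MP_340ce7_lc.Gen.Main

namespace Pool.Agent.Results.MP_340ce7_lc.AllArcs

open Pool.Agent.Work.MP_340ce7_lc

theorem result :
    ∃ e : {T : Set (ℝ × ℝ) // SysAdm T} ≃o
      {S : Set (Σ n : ℕ, Set (Fin n → ℤ)) // (∃ M : Str, S = Dfs M) ∧
        Dfs (arcStr ∅) ⊆ S ∧ S ⊆ Dfs (arcStr ({γ | Irrational γ} ×ˢ Set.univ))},
      ∀ T, (e T).1 = Dfs (arcStr T.1) :=
  gen_main

end Pool.Agent.Results.MP_340ce7_lc.AllArcs
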