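import Pool.Agent.Work.MP_340ce7_lc.Main

namespace Pool.Agent.Results.MP_340ce7_lc.ReductLattice

open Pool.Agent.Work.MP_340ce7_lc

theorem result (A : Set ℝ) (hA : ∀ α ∈ A, Irrational α) :
    (∀ M : Str, Below (cycStr ∅) M → Below M (cycStr A) →
      ∃ B ⊆ A, Below M (cycStr B) ∧ Below (cycStr B) M) ↔ Indep A :=
  main A hA

end Pool.Agent.Results.MP_340ce7_lc.ReductLattice
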